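import Pool.Agent.Q20.SI.Stm3
import Pool.Agent.Q20.RS.Cnt
import Pool.Agent.Q92.DD.Ent

/-!
# The class number formula at zero, up to a rational number
-/

set_option autoImplicit false
set_option linter.unusedSectionVars false

namespace Pool.Agent.Q299.SI.CN0

open NumberField IsDedekindDomain Complex Filter Topology
open Pool.Agent.Q20.SI Pool.Agent.Q20.RS Pool.Agent.Q92.AR Pool.Agent.Q92.DD Pool.Agent.Y773

section gamma

theorem gammaR_two : Gammaℝ 2 = ((Real.pi : ℝ) : ℂ)⁻¹ := by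
  rw [Gammaℝ_def, neg_div, div_self (by norm_num : (2 : ℂ) ≠ 0), Complex.cpow_neg_one, Complex.Gamma_one, mul_one]

/-- the function `1/Γ_ℝ(s + n)`, `n = 0, 1`, near `0` -/
noncomputable def gi (n : ℕ) (s : ℂ) : ℂ :=
  if n = 0 then (2 * ((Real.pi : ℝ) : ℂ))⁻¹ * (Gammaℝ (s + 2))⁻¹ else (Gammaℝ (s + 1))⁻¹

theorem gi_diff (n : ℕ) : Differentiable ℂ (gi n) := by
  unfold gi
  by_cases h : n = 0
  · simp only [if_pos h]
    exact (differentiable_Gammaℝ_inv.comp (differentiable_id.add_const (2 : ℂ))).const_mul _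
  · simp only [if_neg h]
    exact differentiable_Gammaℝ_inv.comp (differentiable_id.add_const (1 : ℂ))

theorem gi_zero (n : ℕ) : gi n 0 = if n = 0 then (1 / 2 : ℂ) else 1 := by
  have hpi : ((Real.pi : ℝ) : ℂ) ≠ 0 := by exact_mod_cast Real.pi_ne_zero
  unfold gi
  split_ifs with h
  · rw [zero_add, gammaR_two]
    field_simp
  · rw [zero_add, Gammaℝ_one, inv_one]

theorem gi_eq {n : ℕ} (hn : n ≤ 1) {s : ℂ} (hs : s ≠ 0) :
    (Gammaℝ (s + n))⁻¹ = s ^ (1 - n) * gi n s := by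
  have hpi : ((Real.pi : ℝ) : ℂ) ≠ 0 := by exact_mod_cast Real.pi_ne_zero
  unfold gi
  interval_cases n
  · simp only [Nat.cast_zero, add_zero, if_true, tsub_zero, pow_one]
    rw [Gammaℝ_add_two hs]
    by_cases h0 : Gammaℝ s = 0
    · simp [h0]
    · field_simp
  · simp

end gamma

section field
variable (F : Type) [Field F] [NumberField F]

/-- the Artin L-function of the trivial character is the zeta function -/
theorem artin_one {s : ℂ} (hs : 1 < s.re) :
    artinLS (F := F) (M := F) ∅ (fun _ => 1) s = NumberField.dedekindZeta F s := by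
  rw [zeta_eq_LP hs]
  have h := artinLS_lin (F := F) (M := F) ∅ (1 : (F ≃ₐ[F] F) →* ℂˣ) s
  simp only [MonoidHom.one_apply, Units.val_one] at h
  rw [h]
  congr 1
  ext w
  simp [InS]

/-- the exponents -/
noncomputable abbrev ee (φ : F →+* ℂ) : ℕ := G.ex (fun _ : InfinitePlace F => 0) φ

theorem ee_le (φ : F →+* ℂ) : ee F φ ≤ 1 := by
  unfold ee
  rw [ex_zero]
  split_ifs
  · exact zero_le_one
  · exact le_rfl

open scoped Classical in
/-- the number of the embeddings with exponent one is the number of the complex places -/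
theorem card_one : (Finset.univ.filter fun φ : F →+* ℂ => ¬ ee F φ = 0).card =
    InfinitePlace.nrComplexPlaces F := by
  have h1 : (Finset.univ.filter fun φ : F →+* ℂ => ee F φ = 0) =
      Finset.univ.image fun w : InfinitePlace F => w.embedding := by
    ext φ
    simp only [Finset.mem_filter, Finset.mem_univ, true_and, Finset.mem_image]
    constructor
    · intro h
      rw [ee, ex_zero] at h
      by_cases h2 : (InfinitePlace.mk φ).IsReal ∨ (InfinitePlace.mk φ).embedding = φ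
      · rcases h2 with h2 | h2
        · refine ⟨InfinitePlace.mk φ, ?_⟩
          rw [InfinitePlace.isReal_mk_iff] at h2
          rcases InfinitePlace.mk_eq_iff.1 (InfinitePlace.mk_embedding (InfinitePlace.mk φ)) with h3 | h3
          · exact h3
          · have h4 := congrArg ComplexEmbedding.conjugate h3
            rw [ComplexEmbedding.involutive_conjugate F] at h4
            rw [h4]
            exact h2
        · exact ⟨_, h2⟩
      · rw [if_neg h2] at h
        exact absurd h one_ne_zero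
    · rintro ⟨w, rfl⟩
      rw [ee, ex_zero, if_pos]
      right
      rw [InfinitePlace.mk_embedding]
  have h2 : (Finset.univ.filter fun φ : F →+* ℂ => ee F φ = 0).card =
      Fintype.card (InfinitePlace F) := by
    rw [h1, Finset.card_image_of_injective, Finset.card_univ]
    intro w w' h
    have h3 := congrArg InfinitePlace.mk h
    simpa using h3
  have h3 := Finset.card_filter_add_card_filter_not (s := (Finset.univ : Finset (F →+* ℂ)))
    (fun φ => ee F φ = 0)
  rw [h2, Finset.card_univ, Embeddings.card, ← InfinitePlace.card_add_two_mul_card_eq_rank,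
    InfinitePlace.card_eq_nrRealPlaces_add_nrComplexPlaces] at h3
  omega

/-- the norm of the different -/
noncomputable abbrev RR : ℝ := ((Ideal.absNorm (differentIdeal ℤ (𝓞 F)) : ℕ) : ℝ)

theorem U_one {U : ℂ → ℂ} (hU : Differentiable ℂ U)
    (hUe : ∀ s : ℂ, 1 < s.re → U s = s * (s - 1) *
      (GG (RR F) (G.ex fun _ : InfinitePlace F => 0) s * NumberField.dedekindZeta F s)) :
    U 1 = GG (RR F) (G.ex fun _ : InfinitePlace F => 0) 1 *
      ((NumberField.dedekindZeta_residue F : ℝ) : ℂ) := by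
  have hG : ContinuousAt (fun s : ℂ => s * GG (RR F) (G.ex fun _ : InfinitePlace F => 0) s) 1 := by
    have h := Pool.Agent.Q246.HPk.GG_diff (norm_diff_pos F)
      (G.ex fun _ : InfinitePlace F => 0) (s := 1) (by simp)
    exact continuousAt_id.mul h.continuousAt
  have hr : Tendsto (fun s : ℝ => ((s : ℝ) : ℂ)) (𝓝[>] 1) (𝓝 1) := by
    have h := (Complex.continuous_ofReal.tendsto (1 : ℝ)).mono_left
      (nhdsWithin_le_nhds (s := Set.Ioi (1 : ℝ)))
    simpa using h
  have h1 : Tendsto (fun s : ℝ => U s) (𝓝[>] 1) (𝓝 (U 1)) := (hU.continuous.tendsto 1).comp hr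
  have h2 : Tendsto (fun s : ℝ => ((s : ℂ) * GG (RR F) (G.ex fun _ : InfinitePlace F => 0) s) *
      (((s : ℂ) - 1) * NumberField.dedekindZeta F s))
      (𝓝[>] 1) (𝓝 (((1 : ℂ) * GG (RR F) (G.ex fun _ : InfinitePlace F => 0) 1) *
        (NumberField.dedekindZeta_residue F : ℝ))) :=
    (hG.tendsto.comp hr).mul (NumberField.tendsto_sub_one_mul_dedekindZeta_nhdsGT F)
  rw [one_mul] at h2
  refine tendsto_nhds_unique (h1.congr' ?_) h2
  filter_upwards [self_mem_nhdsWithin] with s hs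
  have hs' : 1 < ((s : ℝ) : ℂ).re := by simpa using hs
  rw [hUe s hs']
  ring

theorem GG_one : GG (RR F) (G.ex fun _ : InfinitePlace F => 0) 1 =
    ((Real.sqrt |discr F| : ℝ) : ℂ) * (((Real.pi : ℝ) : ℂ)⁻¹) ^ InfinitePlace.nrComplexPlaces F := by
  classical
  unfold GG
  have h1 : ∏ φ : F →+* ℂ, Gammaℝ (1 + ((G.ex (fun _ : InfinitePlace F => 0) φ : ℕ) : ℂ)) =
      (((Real.pi : ℝ) : ℂ)⁻¹) ^ InfinitePlace.nrComplexPlaces F := by
    rw [← card_one F, ← Finset.prod_const, Finset.prod_filter]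
    refine Finset.prod_congr rfl fun φ _ => ?_
    have h2 := ee_le F φ
    have h3 : ee F φ = 0 ∨ ee F φ = 1 := by omega
    rcases h3 with h3 | h3
    · rw [if_neg (not_not.2 h3)]
      change Gammaℝ (1 + ((ee F φ : ℕ) : ℂ)) = 1
      rw [h3, Nat.cast_zero, add_zero, Gammaℝ_one]
    · rw [if_pos (by rw [h3]; exact one_ne_zero)]
      change Gammaℝ (1 + ((ee F φ : ℕ) : ℂ)) = _
      rw [h3, Nat.cast_one, one_add_one_eq_two, gammaR_two]
  rw [h1]
  congr 1
  have h2 : RR F = |(discr F : ℝ)| := by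
    rw [RR, absNorm_differentIdeal (K := F), Nat.cast_natAbs, Int.cast_abs]
  rw [h2]
  have h3 : (0 : ℝ) ≤ |(discr F : ℝ)| := abs_nonneg _
  have h4 : ((1 : ℂ) / 2) = (((1 : ℝ) / 2 : ℝ) : ℂ) := by push_cast; rfl
  rw [h4, ← Complex.ofReal_cpow h3, Real.sqrt_eq_rpow]

theorem U_one_rat {U : ℂ → ℂ} (hU : Differentiable ℂ U)
    (hUe : ∀ s : ℂ, 1 < s.re → U s = s * (s - 1) *
      (GG (RR F) (G.ex fun _ : InfinitePlace F => 0) s * NumberField.dedekindZeta F s)) :
    ∃ q : ℚ, q ≠ 0 ∧ U 1 = (q : ℂ) * ((Units.regulator F : ℝ) : ℂ) := by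
  refine ⟨2 ^ InfinitePlace.nrRealPlaces F * 2 ^ InfinitePlace.nrComplexPlaces F *
    (classNumber F : ℚ) / (Units.torsionOrder F : ℚ), ?_, ?_⟩
  · have h1 : (classNumber F : ℚ) ≠ 0 := by exact_mod_cast (classNumber_pos F).ne'
    have h2 : (Units.torsionOrder F : ℚ) ≠ 0 := by exact_mod_cast (Units.torsionOrder_pos F).ne'
    positivity
  · rw [U_one F hU hUe, GG_one, dedekindZeta_residue_def]
    have h1 : ((Real.sqrt |(discr F : ℝ)| : ℝ) : ℂ) ≠ 0 := by
      have h2 : (0 : ℝ) < Real.sqrt |(discr F : ℝ)| := by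
        apply Real.sqrt_pos.2
        rw [abs_pos]
        exact_mod_cast discr_ne_zero F
      exact_mod_cast h2.ne'
    have h2 : ((Units.torsionOrder F : ℕ) : ℂ) ≠ 0 := by exact_mod_cast (Units.torsionOrder_pos F).ne'
    have hpi : ((Real.pi : ℝ) : ℂ) ≠ 0 := by exact_mod_cast Real.pi_ne_zero
    have h3 : (((Real.pi : ℝ) : ℂ)⁻¹) ^ InfinitePlace.nrComplexPlaces F *
        ((Real.pi : ℝ) : ℂ) ^ InfinitePlace.nrComplexPlaces F = 1 := by
      rw [← mul_pow, inv_mul_cancel₀ hpi, one_pow]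
    push_cast
    rw [mul_pow]
    field_simp
    linear_combination (((Units.regulator F : ℝ) : ℂ) * ((classNumber F : ℕ) : ℂ)) * h3

end field

/-- **The class number formula at zero, up to a rational number.** -/
theorem cn0 : S_CN0 := by
  intro F _ _
  classical
  obtain ⟨U, hU, hUe, hUfe⟩ := exists_xi F
  obtain ⟨q, hq0, hq⟩ := U_one_rat F hU hUe
  have hR := norm_diff_pos F
  have hRc : ((RR F : ℝ) : ℂ) ≠ 0 := by
    have h : (0 : ℝ) < RR F := hR
    exact_mod_cast h.ne'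
  have hU0 : U 0 = U 1 := by
    have h := hUfe 1
    rwa [sub_self] at h
  let P : ℂ → ℂ := fun s => ∏ φ : F →+* ℂ, (Gammaℝ (s + ((ee F φ : ℕ) : ℂ)))⁻¹
  let Q : ℂ → ℂ := fun s => ∏ φ : F →+* ℂ, gi (ee F φ) s
  let f : ℂ → ℂ := fun s => U s * ((s * (s - 1))⁻¹ * ((((RR F : ℝ) : ℂ) ^ (s / 2))⁻¹ * P s))
  let G : ℂ → ℂ := fun s => U s * ((s - 1)⁻¹ * ((((RR F : ℝ) : ℂ) ^ (s / 2))⁻¹ * Q s))
  have hPd : Differentiable ℂ P := Differentiable.fun_finsetProd fun φ _ =>
    differentiable_Gammaℝ_inv.comp (differentiable_id.add_const _)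
  have hQd : Differentiable ℂ Q := Differentiable.fun_finsetProd fun φ _ => gi_diff _
  have hRd : Differentiable ℂ fun s : ℂ => ((RR F : ℝ) : ℂ) ^ (s / 2) := fun s =>
    (differentiableAt_id.div_const 2).const_cpow (Or.inl hRc)
  have hRn : ∀ s : ℂ, ((RR F : ℝ) : ℂ) ^ (s / 2) ≠ 0 := fun s h =>
    hRc ((Complex.cpow_eq_zero_iff _ _).1 h).1
  have hfc : Continues f (artinLS (F := F) (M := F) ∅ (fun _ => 1)) := by
    refine ⟨fun s _ => ?_, fun s hs => ?_⟩
    · refine (hU.analyticAt s).meromorphicAt.fun_mul (MeromorphicAt.fun_mul ?_ (MeromorphicAt.fun_mul ?_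
        (hPd.analyticAt s).meromorphicAt))
      · refine MeromorphicAt.fun_inv ?_
        have h : Differentiable ℂ fun s : ℂ => s * (s - 1) := by fun_prop
        exact (h.analyticAt s).meromorphicAt
      · exact (hRd.analyticAt s).meromorphicAt.fun_inv
    · rw [artin_one F hs]
      have hs0 : s ≠ 0 := by
        rintro rfl
        simp at hs
        linarith
      have hs1 : s - 1 ≠ 0 := by
        intro h
        rw [sub_eq_zero] at h
        subst h
        simp at hs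
      change U s * ((s * (s - 1))⁻¹ * ((((RR F : ℝ) : ℂ) ^ (s / 2))⁻¹ * P s)) = _
      rw [hUe s hs]
      have h1 : (∏ φ : F →+* ℂ, Gammaℝ (s + ((ee F φ : ℕ) : ℂ))) * P s = 1 := by
        change _ * ∏ φ : F →+* ℂ, (Gammaℝ (s + ((ee F φ : ℕ) : ℂ)))⁻¹ = 1
        rw [← Finset.prod_mul_distrib]
        refine Finset.prod_eq_one fun φ _ => mul_inv_cancel₀ ?_
        refine Gammaℝ_ne_zero_of_re_pos ?_
        rw [add_re, natCast_re]
        have : (0 : ℝ) ≤ (ee F φ : ℝ) := Nat.cast_nonneg _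
        linarith
      have h2 : GG (RR F) (Pool.Agent.Y773.G.ex fun _ : InfinitePlace F => 0) s = ((RR F : ℝ) : ℂ) ^ (s / 2) *
        ∏ φ : F →+* ℂ, Gammaℝ (s + ((ee F φ : ℕ) : ℂ)) := rfl
      have h3 := hRn s
      calc _ = (s * (s - 1) * (s * (s - 1))⁻¹) * ((((RR F : ℝ) : ℂ) ^ (s / 2)) * (((RR F : ℝ) : ℂ) ^ (s / 2))⁻¹) *
            ((∏ φ : F →+* ℂ, Gammaℝ (s + ((ee F φ : ℕ) : ℂ))) * P s) * NumberField.dedekindZeta F s := by
              change s * (s - 1) * (GG (RR F) (Pool.Agent.Y773.G.ex fun _ : InfinitePlace F => 0) s *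
                NumberField.dedekindZeta F s) * _ = _
              rw [h2]
              ring
        _ = _ := by
          rw [h1, mul_inv_cancel₀ (mul_ne_zero hs0 hs1), mul_inv_cancel₀ h3]
          ring
  have hcs := cont_spec (g := artinLS (F := F) (M := F) ∅ (fun _ => 1)) ⟨f, hfc⟩
  have hlead : leading (F := F) (M := F) ∅ (fun _ => 1) = meromorphicTrailingCoeffAt f 0 := by
    change meromorphicTrailingCoeffAt (cont (artinLS (F := F) (M := F) ∅ (fun _ => 1))) 0 = _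
    exact meromorphicTrailingCoeffAt_congr_nhdsNE (hcs.eventuallyEq hfc (fun s hs => rfl) 0)
  have hG0 : G 0 = ((-(q * ∏ φ : F →+* ℂ, (if ee F φ = 0 then (1 / 2 : ℚ) else 1)) : ℚ) : ℂ) *
      ((Units.regulator F : ℝ) : ℂ) := by
    change U 0 * ((0 - 1)⁻¹ * ((((RR F : ℝ) : ℂ) ^ ((0 : ℂ) / 2))⁻¹ * ∏ φ : F →+* ℂ, gi (ee F φ) 0)) = _
    have hc : ∀ φ : F →+* ℂ, (((if ee F φ = 0 then (1 / 2 : ℚ) else 1) : ℚ) : ℂ) =
        if ee F φ = 0 then (1 / 2 : ℂ) else 1 := by
      intro φ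
      split_ifs <;> norm_num
    rw [hU0, hq, zero_div, Complex.cpow_zero]
    simp only [gi_zero]
    rw [Rat.cast_neg, Rat.cast_mul, Rat.cast_prod]
    simp only [hc]
    ring
  have hprod : (∏ φ : F →+* ℂ, (if ee F φ = 0 then (1 / 2 : ℚ) else 1)) ≠ 0 := by
    refine Finset.prod_ne_zero_iff.2 fun φ _ => ?_
    split_ifs <;> norm_num
  have hreg : ((Units.regulator F : ℝ) : ℂ) ≠ 0 := by exact_mod_cast (Units.regulator_pos F).ne'
  have hG0n : G 0 ≠ 0 := by
    rw [hG0]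
    refine mul_ne_zero ?_ hreg
    exact_mod_cast neg_ne_zero.2 (mul_ne_zero hq0 hprod)
  have hGa : AnalyticAt ℂ G 0 := by
    refine (hU.analyticAt 0).fun_mul (AnalyticAt.fun_mul ?_ (AnalyticAt.fun_mul ?_ (hQd.analyticAt 0)))
    · have h : Differentiable ℂ fun s : ℂ => s - 1 := by fun_prop
      exact (h.analyticAt 0).fun_inv (by norm_num)
    · exact (hRd.analyticAt 0).fun_inv (hRn 0)
  refine ⟨-(q * ∏ φ : F →+* ℂ, (if ee F φ = 0 then (1 / 2 : ℚ) else 1)),
    neg_ne_zero.2 (mul_ne_zero hq0 hprod), ?_⟩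
  rw [hlead, ← hG0]
  refine hGa.meromorphicTrailingCoeffAt_of_ne_zero_of_eq_nhdsNE
    (n := ((∑ φ : F →+* ℂ, (1 - ee F φ) : ℕ) : ℤ) - 1) hG0n ?_
  filter_upwards [self_mem_nhdsWithin] with s hs
  have hs0 : s ≠ 0 := hs
  rw [sub_zero, smul_eq_mul]
  change U s * ((s * (s - 1))⁻¹ * ((((RR F : ℝ) : ℂ) ^ (s / 2))⁻¹ * P s)) =
    s ^ (((∑ φ : F →+* ℂ, (1 - ee F φ) : ℕ) : ℤ) - 1) *
      (U s * ((s - 1)⁻¹ * ((((RR F : ℝ) : ℂ) ^ (s / 2))⁻¹ * Q s)))
  have h1 : P s = s ^ (∑ φ : F →+* ℂ, (1 - ee F φ)) * Q s := by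
    change ∏ φ : F →+* ℂ, (Gammaℝ (s + ((ee F φ : ℕ) : ℂ)))⁻¹ = _ * ∏ φ : F →+* ℂ, gi (ee F φ) s
    rw [← Finset.prod_pow_eq_pow_sum, ← Finset.prod_mul_distrib]
    exact Finset.prod_congr rfl fun φ _ => gi_eq (ee_le F φ) hs0
  rw [h1, zpow_sub₀ hs0, zpow_natCast, zpow_one, mul_inv]
  ring

end Pool.Agent.Q299.SI.CN0
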